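import Pool.Agent.H33.VK

/-!
The Green-Griffiths-Lang conjecture for projective varieties with generically finite rational maps, or
rational maps with hyperbolic fibres, to projective manifolds with positive 2-forms and metrics of
nonpositive curvature, or to products of such manifolds.
-/

set_option autoImplicit false

open LinearAlgebra.Projectivization MvPolynomial Topology
open Pool.Agent.W602.GT Pool.Agent.N155.BB Pool.Agent.H33

/-- For each `a` in the finite set `J` let `X_a = {F a = 0}` be a projective manifold of dimension `d a`
with positive 2-forms and a metric of nonpositive holomorphic sectional curvature (`NonposManifold`).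
Let `V = {G = 0}` be a projective algebraic set of any dimension, possibly singular, and let `P a` be
rational maps from `V` to `X_a`.

(1) Suppose that `P a`, for some `a`, is defined and has finite fibres outside the closed subset
`B = V ∩ {H = 0}` (so `P a` may be any generically finite rational map, not necessarily dominant).

* There are finitely many nonconstant doubly periodic holomorphic maps `h` from the plane to `V` such
  that every nonconstant holomorphic map `g` from the plane to `V` which is not contained in `B` is
  `g z = h (φ z)` for one of them and some entire function `φ`.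
* If `V` is irreducible of dimension at least two, and `B ≠ V`, then there is a form `E` which is not
  identically zero on `V` and which vanishes on the images of all nonconstant holomorphic maps from
  the plane to `V`.

(2) Let `V` be irreducible. Suppose that for each `a` either the image of `P a` has dimension at least
two, or `X_a` is Brody hyperbolic (for instance a curve of genus at least two) and `P a` is somewhere
defined. Suppose that one of the following two conditions is satisfied.

* The map `(P a)_a` from `V` to the product of the `X_a` is generically finite (not necessarily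
  dominant).
* There is a form `K` which is not identically zero on `V` and vanishes on the images of all
  nonconstant holomorphic maps from the plane to `V` on which every `P a` is somewhere defined and is
  constant, where it is defined (for instance, the `P a` are morphisms, and all fibres of `(P a)_a` which
  are not contained in `K = 0` are Brody hyperbolic).

Then there is a form `E` which is not identically zero on `V` and vanishes on the images of all
nonconstant holomorphic maps from the plane to `V`. -/
theorem Pool.Agent.Results.MP_8d161d_ag.CoversAndFibreSpaces.result {J : Type} [Fintype J]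
    {n d : J → ℕ} {ι : J → Type} (F : ∀ a, ι a → MvPolynomial (Fin (n a + 1)) ℂ)
    (hX : ∀ a, NonposManifold (F a) (d a))
    (m : ℕ) (ι' : Type) (G : ι' → MvPolynomial (Fin (m + 1)) ℂ)
    (P : ∀ a, Fin (n a + 1) → MvPolynomial (Fin (m + 1)) ℂ) (hP : ∀ a, RationalMap G (F a) (P a)) :
    (∀ (a : J) (κ' : Type) (H : κ' → MvPolynomial (Fin (m + 1)) ℂ), (∀ k, IsForm (H k)) →
      FiniteOff G (P a) H →
      (∃ S : Finset (ℂ → ℙ ℂ (Fin (m + 1) → ℂ)),
        (∀ h ∈ S, HolIn G h ∧ DoublyPeriodic h ∧ ∃ z w, h z ≠ h w) ∧
        ∀ g, HolIn G g → (∃ z k, eval (g z).rep (H k) ≠ 0) → (∃ z w, g z ≠ g w) →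
          ∃ h ∈ S, ∃ φ : ℂ → ℂ, Differentiable ℂ φ ∧ ∀ z, g z = h (φ z)) ∧
      (IrreducibleSet G → TwoDimensional G (fun j : Fin (m + 1) => X j) →
        (∃ y ∈ Cone G, ∃ k, eval y (H k) ≠ 0) →
        ∃ E : MvPolynomial (Fin (m + 1)) ℂ, IsForm E ∧ (∃ y ∈ Cone G, eval y E ≠ 0) ∧
          ∀ g, HolIn G g → (∃ z w, g z ≠ g w) → ∀ z, eval (g z).rep E = 0)) ∧
    (IrreducibleSet G →
      (∀ a, TwoDimensional G (P a) ∨ ((∃ y ∈ Cone G, ratVal (P a) y ≠ 0) ∧
        ∀ f, HolIn (F a) f → ∀ z w, f z = f w)) →
      (JointlyFinite G P ∨ ∃ K : MvPolynomial (Fin (m + 1)) ℂ, IsForm K ∧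
        (∃ y ∈ Cone G, eval y K ≠ 0) ∧
        ∀ g, HolIn G g → (∃ z w, g z ≠ g w) →
          (∀ a, (∃ z, ratVal (P a) (g z).rep ≠ 0) ∧
            ∃ x : Fin (n a + 1) → ℂ, ∀ z, ∃ c : ℂ, ratVal (P a) (g z).rep = c • x) →
          ∀ z, eval (g z).rep K = 0) →
      ∃ E : MvPolynomial (Fin (m + 1)) ℂ, IsForm E ∧ (∃ y ∈ Cone G, eval y E ≠ 0) ∧
        ∀ g, HolIn G g → (∃ z w, g z ≠ g w) → ∀ z, eval (g z).rep E = 0) := by
  choose hX hη hΦ using hX
  choose ν κ η hκ hν hη hh using hη
  choose Φ hΦ hnd hr using hΦ
  refine ⟨fun a κ' H hH hfin => cover_ggl (hX a) (hη a) (hν a) (hh a) (hΦ a) (hnd a) (hr a) hH (hP a)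
    hfin, fun hirr hdim hK => ?_⟩
  rcases hK with hgf | ⟨K, hK, hK0, hKf⟩
  · obtain ⟨E, α, h1, h2, h3, -⟩ := joint_bound hX hη hν hh hΦ hnd hr hP hirr hdim hgf
    exact ⟨E, h1, h2, h3⟩
  · exact joint_ggl hX hη hν hh hΦ hnd hr hP hirr hdim hK hK0 hKf
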