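import Pool.Agent.H33.HGGL

/-!
The Green-Griffiths-Lang conjecture for projective manifolds with positive 2-forms (for surfaces: of
general type) and a Hermitian metric of nonpositive holomorphic sectional curvature.
-/

set_option autoImplicit false

open LinearAlgebra.Projectivization MvPolynomial Topology
open Pool.Agent.W602.GT Pool.Agent.N155.BB Pool.Agent.H33

/-- Let `X = {F = 0}` be a projective manifold of dimension `d` whose 2-forms are positive: there are
finitely many sections of `Sym ^ ν (Λ² Ω) ⊗ O (-1)`, for some `ν > 0`, whose values at `(v ∧ w) ^ ν`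
are not all zero for linearly independent tangent vectors `v`, `w`. This holds if `Λ² Ω` is ample, and
if `d = 2`, it holds if the canonical bundle is ample. Let `Φ` be a metric on `X` whose holomorphic
sectional curvature is nonpositive; here `Φ` is a Hermitian metric with twice continuously
differentiable coefficients, or more generally a uniformly convex complex Finsler metric. (A surface
of general type with such a metric does not contain rational curves, so its canonical bundle is
ample, and the theorem applies.)

Then there is a finite set `S` of doubly periodic holomorphic maps `h` from the complex plane to `X`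
with `|h'| = 1` such that every nonconstant holomorphic map from the complex plane to `X` is of the
form `h (φ (z))` for some `h` in `S` and some entire function `φ`. In particular, the images of
all nonconstant holomorphic maps from the complex plane to `X` are the finitely many (possibly
singular) elliptic curves `h (ℂ)`, and if `d ≥ 2`, then they are in a proper algebraic subset
`X ∩ {E = 0}`: for every point `x` of `X` there is a form `E` which vanishes at all these curves
but does not vanish identically on `X` near `x`. -/
theorem Pool.Agent.Results.MP_8d161d_ag.HermitianNonpositiveCurvature.result {n d ν : ℕ} {ι κ : Type}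
    [Finite κ] (F : ι → MvPolynomial (Fin (n + 1)) ℂ) (hX : ProjManifold F d)
    (η : κ → (Fin (n + 1) → ℂ) → (Fin (n + 1) → ℂ) → (Fin (n + 1) → ℂ) → ℂ)
    (hη : PositiveTwoForms (Cone F) ∅ d η) (hν : ν ≠ 0) (hh : HomForms (Cone F) ν η)
    (Φ : (Fin (n + 1) → ℂ) → (Fin (n + 1) → ℂ) → ℝ) (hΦ : NonposMetric (Cone F) d Φ)
    (hnd : Nondegenerate (Cone F) d Φ)
    (hr : HermitianMetric (Cone F) d Φ ∨ UniformlyConvex (Cone F) d Φ) :
    ∃ S : Finset (ℂ → ℙ ℂ (Fin (n + 1) → ℂ)),
      (∀ h ∈ S, HolIn F h ∧ DoublyPeriodic h ∧ HasSpeed Φ 1 h) ∧
      (∀ f, HolIn F f → (∃ z w, f z ≠ f w) →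
        ∃ h ∈ S, ∃ φ : ℂ → ℂ, Differentiable ℂ φ ∧ ∀ z, f z = h (φ z)) ∧
      (2 ≤ d → ∀ x ∈ Cone F, ∃ E : MvPolynomial (Fin (n + 1)) ℂ, IsForm E ∧
        (¬ ∀ᶠ y in 𝓝[Cone F] x, eval y E = 0) ∧
        ∀ f, HolIn F f → (∃ z w, f z ≠ f w) → ∀ z, eval (f z).rep E = 0) :=
  ggl hX hη hν hh hΦ hnd hr
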