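import Pool.Agent.H33.GFin
import Pool.Graph.R_pool_sql_team_seeded_63374d34.N155.B.Rat

/-!
Entire curves in projective manifolds with positive 2-forms (for surfaces: of general type) and a
metric of nonpositive curvature, whose elliptic curves are in an exceptional set.
-/

set_option autoImplicit false

open LinearAlgebra.Projectivization Pool.Agent.W602.GT Pool.Agent.N155.BB Pool.Agent.H33

/-- Let `X = {F = 0}` be a projective manifold of dimension `d`, and `Z = {G = 0}` a projective set
such that the holomorphic maps from the complex plane to `X ∩ Z` are constant or factor through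
rational curves (for example `Z` empty). Suppose that the 2-forms on `X` are positive outside `Z`
(for example `Z` empty and `Λ² Ω` ample; if `d = 2`, this means that the canonical bundle is ample).
Let `Φ` be a nondegenerate complex Finsler metric of nonpositive curvature on `X`; for example a
Hermitian metric with nonpositive holomorphic sectional curvature. Let `Ψ` be a function on the
tangent vectors of `X`, homogeneous of degree `a` (for `a = 0` a function on `X`), which is negatively
curved near its zeros, see `NegativeNearZeros`.

If `Ψ (h') = 0` for all nonconstant doubly periodic holomorphic maps `h` from the complex plane to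
`X`, then `Ψ (f') = 0` for all nonconstant holomorphic maps `f` from the complex plane to `X`. In
particular, if the nonzero tangent vectors on which `Ψ` vanishes are tangent vectors at points of the
algebraic subset `Y = X ∩ {E = 0}`, then all these `f` are maps to `Y`.

For example, let `Y` be an algebraic subset of `X` which contains all the images of holomorphic maps
from elliptic curves to `X` and is exceptional, that is, can be contracted (on a surface, a union
of curves with negative definite intersection matrix). Then the theorem applies with `a = 0` and a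
function on `X` which vanishes exactly on `Y`. -/
theorem Pool.Agent.Results.MP_8d161d_ag.NonpositiveCurvature.result {n d : ℕ} {ι ι' : Type}
    (F : ι → MvPolynomial (Fin (n + 1)) ℂ) (hX : ProjManifold F d)
    (G : ι' → MvPolynomial (Fin (n + 1)) ℂ) (hG : ∀ i, IsForm (G i))
    (hZ : RationalCurvesOnly F G) {κ : Type}
    (η : κ → (Fin (n + 1) → ℂ) → (Fin (n + 1) → ℂ) → (Fin (n + 1) → ℂ) → ℂ)
    (hη : PositiveTwoForms (Cone F) (Cone G) d η)
    (Φ : (Fin (n + 1) → ℂ) → (Fin (n + 1) → ℂ) → ℝ) (hΦ : NonposMetric (Cone F) d Φ)
    (hnd : Nondegenerate (Cone F) d Φ) (a : ℕ)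
    (Ψ : (Fin (n + 1) → ℂ) → (Fin (n + 1) → ℂ) → ℝ) (hΨ : NegativeNearZeros (Cone F) d Φ a Ψ)
    (hell : ∀ h : ℂ → ℙ ℂ (Fin (n + 1) → ℂ), HolIn F h → (∃ z w, h z ≠ h w) → DoublyPeriodic h →
      HasSpeed Ψ 0 h)
    (f : ℂ → ℙ ℂ (Fin (n + 1) → ℂ)) (hf : HolIn F f) (hne : ∃ z w, f z ≠ f w) :
    HasSpeed Ψ 0 f ∧
      ∀ {ι'' : Type} (E : ι'' → MvPolynomial (Fin (n + 1)) ℂ), (∀ i, IsForm (E i)) →
        ZerosOver (Cone F) Ψ (Cone E) → ∀ z, (f z).rep ∈ Cone E := by
  have h := degenerate hX hG hη (noBC_of hZ) hΦ hnd hΨ hell hf hne
  exact ⟨h, fun E hE hz => mem_of_null hX hE hz hf hne h⟩
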