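import Pool.Agent.H33.VN

/-!
The big Picard theorem modulo a proper algebraic subset for projective manifolds with positive 2-forms
(for surfaces: of general type) and a Hermitian metric of nonpositive holomorphic sectional curvature,
and for the varieties which are generically finite over products of such manifolds.
-/

set_option autoImplicit false

open LinearAlgebra.Projectivization MvPolynomial Topology
open Pool.Agent.W602.GT Pool.Agent.N155.BB Pool.Agent.H33
open Pool.Agent.N155 (HolMapOn)

/-- For each `a` in the finite set `J` let `X_a = {F a = 0}` be a projective manifold of dimension `d a`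
with positive 2-forms and a metric of nonpositive holomorphic sectional curvature (`NonposManifold`). (A
surface of general type with a Hermitian metric of nonpositive holomorphic sectional curvature does not
contain rational curves, so its canonical bundle is ample, and the theorem applies.)

(1) For each `a` there is a finite set `S` of nonconstant doubly periodic holomorphic maps `h` from the
complex plane to `X_a` with the following properties. Let `Z` be the union of the (elliptic) curves
`h (ℂ)`.

* Every nonconstant holomorphic map from the complex plane to `X_a` has its image in `Z`.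
* Every holomorphic map from the punctured disc to `X_a` whose image is not contained in `Z` extends to
  a holomorphic map from the disc to `X_a`.
* If `d a ≥ 2` then `Z` is contained in a proper algebraic subset `X_a ∩ {E = 0}` of `X_a`; for a given
  point `x` of `X_a`, the form `E` can be chosen so that it does not vanish identically on `X_a` near
  `x`.

(2) Let `V = {G = 0}` be an irreducible projective algebraic set, possibly singular, and let `P a` be
rational maps from `V` to `X_a`, such that the map `(P a)_a` from `V` to the product of the `X_a` is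
generically finite (not necessarily dominant). Suppose that for each `a` either the image of `P a` has
dimension at least two, or `X_a` is Brody hyperbolic (for instance a curve of genus at least two) and
`P a` is somewhere defined. Then there is a form `T` which is not identically zero on `V` with the
following properties.

* Every nonconstant holomorphic map from the complex plane to `V` has its image in `{T = 0}`.
* Every holomorphic map from the punctured disc to `V` whose image is not contained in `{T = 0}`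
  extends to a holomorphic map from the disc to `V`.

So `V`, and `X_a` if `d a ≥ 2`, are pseudo Picard hyperbolic and pseudo Brody hyperbolic. -/
theorem Pool.Agent.Results.MP_8d161d_ag.PseudoPicard.result {J : Type} [Fintype J]
    {n d : J → ℕ} {ι : J → Type} (F : ∀ a, ι a → MvPolynomial (Fin (n a + 1)) ℂ)
    (hX : ∀ a, NonposManifold (F a) (d a)) :
    (∀ a, ∃ S : Finset (ℂ → ℙ ℂ (Fin (n a + 1) → ℂ)),
      (∀ h ∈ S, HolIn (F a) h ∧ DoublyPeriodic h ∧ ∃ z w, h z ≠ h w) ∧
      (∀ f, HolIn (F a) f → (∃ z w, f z ≠ f w) → ∀ z, ∃ h ∈ S, ∃ w, f z = h w) ∧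
      (∀ f : ℂ → ℙ ℂ (Fin (n a + 1) → ℂ), HolMapOn (Metric.ball 0 1 \ {0}) f →
        (∀ z ∈ Metric.ball (0 : ℂ) 1 \ {0}, (f z).rep ∈ Cone (F a)) →
        (∃ z ∈ Metric.ball (0 : ℂ) 1 \ {0}, ∀ h ∈ S, ∀ w, f z ≠ h w) →
        ∃ g : ℂ → ℙ ℂ (Fin (n a + 1) → ℂ), HolMapOn (Metric.ball 0 1) g ∧
          (∀ z ∈ Metric.ball (0 : ℂ) 1, (g z).rep ∈ Cone (F a)) ∧
          ∀ z ∈ Metric.ball (0 : ℂ) 1 \ {0}, g z = f z) ∧
      (2 ≤ d a → ∀ x ∈ Cone (F a), ∃ E : MvPolynomial (Fin (n a + 1)) ℂ, IsForm E ∧
        (¬ ∀ᶠ y in 𝓝[Cone (F a)] x, eval y E = 0) ∧ ∀ h ∈ S, ∀ z, eval (h z).rep E = 0)) ∧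
    ∀ (m : ℕ) (ι' : Type) (G : ι' → MvPolynomial (Fin (m + 1)) ℂ)
      (P : ∀ a, Fin (n a + 1) → MvPolynomial (Fin (m + 1)) ℂ), (∀ j, IsForm (G j)) →
      (∀ a, RationalMap G (F a) (P a)) → IrreducibleSet G →
      (∀ a, TwoDimensional G (P a) ∨ ((∃ y ∈ Cone G, ratVal (P a) y ≠ 0) ∧
        ∀ f, HolIn (F a) f → ∀ z w, f z = f w)) → JointlyFinite G P →
      ∃ T : MvPolynomial (Fin (m + 1)) ℂ, IsForm T ∧ (∃ y ∈ Cone G, eval y T ≠ 0) ∧
        (∀ g, HolIn G g → (∃ z w, g z ≠ g w) → ∀ z, eval (g z).rep T = 0) ∧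
        ∀ f : ℂ → ℙ ℂ (Fin (m + 1) → ℂ), HolMapOn (Metric.ball 0 1 \ {0}) f →
          (∀ z ∈ Metric.ball (0 : ℂ) 1 \ {0}, (f z).rep ∈ Cone G) →
          (∃ z ∈ Metric.ball (0 : ℂ) 1 \ {0}, eval (f z).rep T ≠ 0) →
          ∃ g : ℂ → ℙ ℂ (Fin (m + 1) → ℂ), HolMapOn (Metric.ball 0 1) g ∧
            (∀ z ∈ Metric.ball (0 : ℂ) 1, (g z).rep ∈ Cone G) ∧
            ∀ z ∈ Metric.ball (0 : ℂ) 1 \ {0}, g z = f z := by
  choose hX hη hΦ using hX
  choose ν κ η hκ hν hη hh using hη
  choose Φ hΦ hnd hr using hΦ
  refine ⟨fun a => ?_, fun m ι' G P hGf hP hirr hdim hgf => ?_⟩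
  · obtain ⟨S, h1, h2, h3, h4⟩ := picard (hX a) (hη a) (hν a) (hh a) (hΦ a) (hnd a) (hr a)
    exact ⟨S, fun h hS => ⟨(h1 h hS).1, (h1 h hS).2.1, (h1 h hS).2.2.2⟩, h2, h3, h4⟩
  · obtain ⟨T₁, α, a1, a2, a3, -⟩ := joint_bound hX hη hν hh hΦ hnd hr hP hirr hdim hgf
    obtain ⟨T₂, b1, b2, b3⟩ := joint_picard hX hη hν hh hΦ hnd hr hGf hP hirr hdim hgf
    refine ⟨T₁ * T₂, IsForm.mul' a1 b1, hirr.two a1 b1 a2 b2, fun g hg hnc z => ?_,
      fun f hf hfG ⟨z, hz, hne⟩ => b3 f hf hfG ⟨z, hz, fun h0 => hne ?_⟩⟩
    · rw [map_mul, a3 g hg hnc z, zero_mul]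
    · rw [map_mul, h0, mul_zero]
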